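import Pool.Agent.Helper19_MT100.Hgt
import Pool.Agent.Helper5_MT100.Gcl
import Pool.Agent.MT100G.Defs

/-! BIN: the power series `(1 - κ z) ^ δ` for rational `δ`: G-type, inverse, differential equation,
values at complex numbers. -/

set_option autoImplicit false

namespace Pool.Agent.MT100.H34

open Finset Pool.Agent.Helper5_MT100 Pool.Agent.MT100.H19

/-- the power series `(1 - κ z) ^ δ` -/
noncomputable def bn (κ : ℕ) (δ : ℚ) : PowerSeries ℚ :=
  PowerSeries.rescale (-(κ : ℚ)) (PowerSeries.binomialSeries ℚ δ)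

theorem coeff_bn (κ : ℕ) (δ : ℚ) (k : ℕ) :
    PowerSeries.coeff k (bn κ δ) = (-(κ : ℚ)) ^ k * Ring.choose δ k := by
  rw [bn, PowerSeries.coeff_rescale, PowerSeries.binomialSeries_coeff, smul_eq_mul, mul_one]

theorem constantCoeff_bn (κ : ℕ) (δ : ℚ) : PowerSeries.constantCoeff (bn κ δ) = 1 := by
  rw [← PowerSeries.coeff_zero_eq_constantCoeff_apply, coeff_bn]
  simp

theorem bn_add (κ : ℕ) (δ ε : ℚ) : bn κ (δ + ε) = bn κ δ * bn κ ε := by
  rw [bn, PowerSeries.binomialSeries_add, map_mul]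
  rfl

theorem bn_zero (κ : ℕ) : bn κ 0 = 1 := by
  rw [bn, PowerSeries.binomialSeries_zero, map_one]

theorem bn_nat (κ n : ℕ) : bn κ n = (1 - PowerSeries.C (κ : ℚ) * PowerSeries.X) ^ n := by
  have h : PowerSeries.rescale (-(κ : ℚ)) (PowerSeries.X : PowerSeries ℚ) =
      -(PowerSeries.C (κ : ℚ) * PowerSeries.X) := by
    ext k
    rw [PowerSeries.coeff_rescale, map_neg, PowerSeries.coeff_C_mul, PowerSeries.coeff_X]
    split_ifs with hk
    · rw [hk]; ring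
    · ring
  rw [bn, PowerSeries.binomialSeries_nat, map_pow, map_add, map_one, h, sub_eq_add_neg]

theorem bn_mul_neg (κ : ℕ) (δ : ℚ) : bn κ δ * bn κ (-δ) = 1 := by
  rw [← bn_add, add_neg_cancel, bn_zero]

theorem choose_succ_mul (δ : ℚ) (k : ℕ) :
    ((k : ℚ) + 1) * Ring.choose δ (k + 1) = (δ - k) * Ring.choose δ k := by
  have h := Ring.choose_smul_choose δ (Nat.le_succ k)
  rw [Nat.succ_eq_add_one, Nat.choose_succ_self_right, Nat.add_sub_cancel_left,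
    Ring.choose_one_right, nsmul_eq_mul] at h
  push_cast at h
  rw [h]
  ring

/-- the differential equation -/
theorem bn_ode (κ : ℕ) (δ : ℚ) :
    (1 - PowerSeries.C (κ : ℚ) * PowerSeries.X) * dv (bn κ δ) =
      PowerSeries.C (-(κ : ℚ) * δ) * bn κ δ := by
  ext k
  rw [sub_mul, one_mul, map_sub, mul_assoc, PowerSeries.coeff_C_mul, PowerSeries.coeff_C_mul,
    PowerSeries.coeff_derivative, coeff_bn, coeff_bn]
  have h := choose_succ_mul δ k
  cases k with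
  | zero =>
    rw [PowerSeries.coeff_zero_X_mul]
    simp
  | succ k =>
    rw [PowerSeries.coeff_succ_X_mul, PowerSeries.coeff_derivative, coeff_bn]
    push_cast at h ⊢
    rw [pow_succ (-(κ : ℚ)) (k + 1)]
    linear_combination (-(κ : ℚ)) ^ (k + 1) * (-(κ : ℚ)) * h

theorem choose_neg_eq (x : ℚ) (k : ℕ) :
    (-1) ^ k * Ring.choose (-x) k = ∏ j ∈ range k, (((j : ℚ) + x) * ((j : ℚ) + 1)⁻¹) := by
  induction k with
  | zero => simp
  | succ k ih =>
    rw [prod_range_succ, ← ih]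
    have h := choose_succ_mul (-x) k
    have hk : ((k : ℚ) + 1) ≠ 0 := by positivity
    field_simp
    rw [pow_succ]
    linear_combination -(-1 : ℚ) ^ k * h

theorem gtype_bn_neg (κ p q : ℕ) (hq : 0 < q) : GType (bn κ (-((p : ℚ) / q))) := by
  have hc : ∀ k, PowerSeries.coeff k (bn κ (-((p : ℚ) / q))) =
      (κ : ℚ) ^ k * ∏ j ∈ range k, (((j : ℚ) + (p : ℚ) / q) * ((j : ℚ) + 1)⁻¹) := by
    intro k
    rw [coeff_bn, ← choose_neg_eq, neg_pow, mul_comm ((-1) ^ k) _, mul_assoc]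
  have hq1 : (0 : ℚ) < q := by exact_mod_cast hq
  refine ⟨(κ + 1) * (p + 1) * (q * q), by positivity, fun k => ⟨?_, q ^ (2 * k), by positivity, ?_,
    fun i hi => ?_⟩⟩
  · rw [hc, abs_mul, abs_pow, Nat.abs_cast, abs_prod]
    have h1 : ∏ j ∈ range k, |((j : ℚ) + (p : ℚ) / q) * ((j : ℚ) + 1)⁻¹| ≤
        ∏ j ∈ range k, ((p : ℚ) + 1) := by
      refine prod_le_prod (fun _ _ => abs_nonneg _) fun j _ => ?_
      rw [abs_of_nonneg (by positivity), ← div_eq_mul_inv, div_le_iff₀ (by positivity)]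
      have h2 : (p : ℚ) / q ≤ p := div_le_self (by positivity) (by exact_mod_cast hq)
      have h3 : (0 : ℚ) ≤ j := Nat.cast_nonneg j
      have h4 : (0 : ℚ) ≤ p := Nat.cast_nonneg p
      nlinarith
    rw [prod_const, card_range] at h1
    have h5 : (κ : ℚ) ^ k ≤ ((κ : ℚ) + 1) ^ (k + 1) :=
      (pow_le_pow_left₀ (Nat.cast_nonneg κ) (by linarith) k).trans
        (pow_le_pow_right₀ (by linarith [(Nat.cast_nonneg κ : (0 : ℚ) ≤ κ)]) (Nat.le_succ k))
    have h6 : ((p : ℚ) + 1) ^ k ≤ ((p : ℚ) + 1) ^ (k + 1) :=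
      pow_le_pow_right₀ (by linarith [(Nat.cast_nonneg p : (0 : ℚ) ≤ p)]) (Nat.le_succ k)
    have h7 : (1 : ℚ) ≤ ((q : ℚ) * q) ^ (k + 1) := by
      refine one_le_pow₀ ?_
      have : (1 : ℚ) ≤ q := by exact_mod_cast hq
      nlinarith
    push_cast
    calc (κ : ℚ) ^ k * ∏ j ∈ range k, |((j : ℚ) + (p : ℚ) / q) * ((j : ℚ) + 1)⁻¹|
        ≤ ((κ : ℚ) + 1) ^ (k + 1) * ((p : ℚ) + 1) ^ (k + 1) :=
          mul_le_mul h5 (h1.trans h6) (prod_nonneg fun _ _ => abs_nonneg _) (by positivity)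
      _ ≤ ((κ : ℚ) + 1) ^ (k + 1) * ((p : ℚ) + 1) ^ (k + 1) * ((q : ℚ) * q) ^ (k + 1) :=
          le_mul_of_one_le_right (by positivity) h7
      _ = _ := by rw [← mul_pow, ← mul_pow]
  · calc q ^ (2 * k) = (q * q) ^ k := by rw [pow_mul, sq]
      _ ≤ (q * q) ^ (k + 1) := Nat.pow_le_pow_right (by positivity) (Nat.le_succ k)
      _ ≤ _ := Nat.pow_le_pow_left (Nat.le_mul_of_pos_left _ (by positivity)) _
  · obtain ⟨z, hz⟩ := mem_Zr.1 (bin_mem hq rfl i (x := (p : ℚ) / q))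
    refine ⟨(q : ℤ) ^ (2 * (k - i)) * (κ : ℤ) ^ i * z, ?_⟩
    rw [hc]
    push_cast
    rw [← hz]
    have h : (q : ℚ) ^ (2 * k) = (q : ℚ) ^ (2 * (k - i)) * (q : ℚ) ^ (2 * i) := by
      rw [← pow_add]
      congr 1
      omega
    rw [h]
    ring

theorem gtype_pow' {f : PowerSeries ℚ} (hf : GType f) (n : ℕ) : GType (f ^ n) := by
  induction n with
  | zero => rw [pow_zero]; simpa using gconst 1
  | succ n ih => rw [pow_succ]; exact gmul ih hf

theorem gtype_bn (κ : ℕ) (δ : ℚ) : GType (bn κ δ) := by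
  obtain ⟨n, hn⟩ := exists_nat_ge δ
  have h0 : 0 ≤ (n : ℚ) - δ := by linarith
  have h1 : (n : ℚ) - δ = ((((n : ℚ) - δ).num.toNat : ℕ) : ℚ) / ((n : ℚ) - δ).den := by
    have h2 : ((((n : ℚ) - δ).num.toNat : ℕ) : ℚ) = ((n : ℚ) - δ).num := by
      have h3 : 0 ≤ ((n : ℚ) - δ).num := Rat.num_nonneg.2 h0
      have h4 : ((((n : ℚ) - δ).num.toNat : ℕ) : ℤ) = ((n : ℚ) - δ).num := Int.toNat_of_nonneg h3
      exact_mod_cast h4
    rw [h2]
    exact (Rat.num_div_den _).symm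
  have h2 : bn κ δ = bn κ n * bn κ (-((((((n : ℚ) - δ).num.toNat : ℕ) : ℚ) / ((n : ℚ) - δ).den))) := by
    rw [← bn_add, ← h1]
    congr 1
    ring
  rw [h2, bn_nat]
  refine gmul (gtype_pow' ?_ n) (gtype_bn_neg κ _ _ (Rat.den_pos _))
  have h3 : GType (1 : PowerSeries ℚ) := by simpa using gconst 1
  exact gsub h3 (gmul (gconst _) gX)

/-! ### Values -/

theorem hasSum_bn (κ : ℕ) (δ : ℚ) {x : ℂ} (hx : ‖(κ : ℂ) * x‖ < 1) :
    HasSum (fun k => ((PowerSeries.coeff k (bn κ δ) : ℚ) : ℂ) * x ^ k)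
      ((1 - κ * x) ^ ((δ : ℚ) : ℂ)) := by
  have h := (Complex.one_add_cpow_hasFPowerSeriesOnBall_zero (a := ((δ : ℚ) : ℂ))).hasSum
    (y := -(κ * x)) (by
      rw [Metric.mem_eball, edist_zero_right, ← ofReal_norm_eq_enorm, norm_neg, ENNReal.ofReal_lt_one]
      exact hx)
  simp only [binomialSeries_apply, zero_add, List.ofFn_const, List.prod_replicate, smul_eq_mul] at h
  rw [← sub_eq_add_neg] at h
  have e : ∀ k, ((PowerSeries.coeff k (bn κ δ) : ℚ) : ℂ) * x ^ k =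
      Ring.choose ((δ : ℚ) : ℂ) k * (-(κ * x)) ^ k := by
    intro k
    have h1 : ((Ring.choose δ k : ℚ) : ℂ) = Ring.choose ((δ : ℚ) : ℂ) k :=
      Ring.map_choose (algebraMap ℚ ℂ) _ _
    rw [coeff_bn]
    push_cast
    rw [h1, neg_pow, neg_pow ((κ : ℂ) * x), mul_pow]
    ring
  simp only [e]
  exact h

open Pool.Agent.MT100G in
theorem evC_bn (κ : ℕ) (δ : ℚ) {x : ℂ} (hx : ‖(κ : ℂ) * x‖ < 1) :
    evC (bn κ δ) x = (1 - κ * x) ^ ((δ : ℚ) : ℂ) := (hasSum_bn κ δ hx).tsum_eq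

theorem summable_bn (κ : ℕ) (δ : ℚ) {x : ℂ} (hx : ‖(κ : ℂ) * x‖ < 1) :
    Summable fun k => ((PowerSeries.coeff k (bn κ δ) : ℚ) : ℂ) * x ^ k :=
  (hasSum_bn κ δ hx).summable

end Pool.Agent.MT100.H34
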